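import Pool.Agent.Run7.h433.Glue

/-!
# A lower bound of order `1 / g` for the slope `s_g`
-/

set_option autoImplicit false

namespace Pool.Agent.Results.MP_bdec93_ag.SlopeLowerBound

open Run7.h433.Slope

/-- For every `g ≥ 1`: `2 π² / ((g + 1)!)^(1/g) ≤ 4 π / μ_g ≤ s_g`, where `μ_g` is the largest
possible value of the minimal squared length of a period of a principally polarized abelian
variety of dimension `g`. -/
theorem result (g : ℕ) (hg : 1 ≤ g) :
    2 * Real.pi ^ 2 / ((g + 1).factorial : ℝ) ^ (1 / (g : ℝ)) ≤ 4 * Real.pi / maxMinPeriod g ∧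
      ((4 * Real.pi / maxMinPeriod g : ℝ) : EReal) ≤ minSlope g :=
  Run7.h433.slope_bound hg

end Pool.Agent.Results.MP_bdec93_ag.SlopeLowerBound
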