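import Pool.Agent.Run7.h433.Final

/-!
# A recursive lower bound for the slope `s_g`
-/

set_option autoImplicit false

namespace Pool.Agent.Results.MP_bdec93_ag.SlopeRecursion

open Run7.h433.Slope

/-- For every `g ≥ 1`: `s_(g+1) ≥ (5/6) s_g`, `s_(g+2) ≥ (3/4) s_g` and `s_(g+3) ≥ (2/3) s_g`,
that is, `((11 - h) / 12) s_g ≤ s_(g+h)` for `h = 1, 2, 3`. -/
theorem result (g h : ℕ) (hg : 1 ≤ g) (h1 : 1 ≤ h) (h3 : h ≤ 3) :
    (((11 - h) / 12 : ℝ) : EReal) * minSlope g ≤ minSlope (g + h) :=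
  Run7.h433.slope_rec hg h1 h3

end Pool.Agent.Results.MP_bdec93_ag.SlopeRecursion
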